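import Mathlib

namespace Pool.Agent.Results.MP_207c40_pr.Golden

open MeasureTheory ProbabilityTheory Finset Real
open scoped ENNReal goldenRatio

/-- Shannon entropy of a probability measure: the mean of minus the log of the point mass -/
noncomputable def ent {E : Type} [MeasurableSpace E] (ν : Measure E) : ℝ≥0∞ :=
  ∫⁻ y, (-ENNReal.log (ν {y})).toENNReal ∂ν

noncomputable def r (i : Bool) : ℝ := if i then 1 else φ

noncomputable def Q (i j : Bool) : ℝ := if i && j then 0 else r j / (φ * r i)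

lemma cyl (n : ℕ) (w : Fin (n + 1) → Bool) :
    (∏ i : Fin n, Q (w i.castSucc) (w i.succ)) * (φ ^ n * r (w 0)) ≤ r (w (Fin.last n)) := by
  have := goldenRatio_pos
  induction n with
  | zero => simp
  | succ n ih =>
    have h := ih fun i => w i.castSucc
    have h1 : ∀ i j, 0 ≤ Q i j * φ ∧ Q i j * φ * r i ≤ r j := fun i j => by
      cases i <;> cases j <;> simp [Q, r] <;> first | positivity | (field_simp; simp)
    rw [Fin.prod_univ_castSucc]
    refine le_trans (le_of_eq_of_le ?_ (mul_le_mul_of_nonneg_left h (h1 _ _).1)) (h1 _ _).2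
    simp only [Fin.succ_castSucc, Fin.castSucc_zero, Fin.succ_last]
    ring

variable {E : Type} [MeasurableSpace E] [MeasurableSingletonClass E] (ν : Measure E)
  [IsProbabilityMeasure ν]

lemma mν : Measurable fun y => ν {y} :=
  (measurable_const (a := 0)).measurable_of_countable_ne
    ((Measure.countable_meas_level_set_pos (μ := ν) measurable_id).mono fun y h => by
      simpa [pos_iff_ne_zero, eq_comm (a := (0 : ℝ≥0∞))] using h)

lemma fin {θ : ℝ} (hθ : 0 < θ) (h1 : ent ν = .ofReal (log φ))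
    (h2 : ∫⁻ y, .ofReal ((φ * ν.real {y}) ^ θ) ∂ν ≤ 1) : False := by
  have g0 := goldenRatio_pos
  have g1 := log_pos one_lt_goldenRatio
  have m := mν ν
  have m1 : Measurable fun y => ν.real {y} := m.ennreal_toReal
  have m2 : Measurable fun y => (-ENNReal.log (ν {y})).toENNReal :=
    m.ennreal_log.neg.ereal_toENNReal
  have h3 : ∀ᵐ y ∂ν, 0 < ν.real {y} := (ae_lt_top m2 (by rw [← ent, h1]; simp)).mono fun y h =>
    ENNReal.toReal_pos (fun k => by simp [k] at h) (measure_ne_top _ _)
  have h4 : ∫⁻ y, ENNReal.ofReal ((φ * ν.real {y}) ^ θ - 1 - θ * log (φ * ν.real {y})) ∂ν +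
      .ofReal (1 + θ * log φ) = ∫⁻ y, .ofReal ((φ * ν.real {y}) ^ θ) ∂ν + .ofReal θ * ent ν := by
    rw [ent, ← lintegral_const_mul _ m2, ← lintegral_add_left (by fun_prop), ← mul_one (ENNReal.ofReal (1 + _)),
      ← measure_univ (μ := ν), ← lintegral_const, ← lintegral_add_right _ measurable_const]
    refine lintegral_congr_ae (h3.mono fun y h => ?_)
    have k := add_one_le_exp (log (φ * ν.real {y}) * θ)
    have k1 := log_nonpos h.le measureReal_le_one
    rw [← rpow_def_of_pos (by positivity)] at k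
    dsimp only
    rw [← ofReal_measureReal (μ := ν), ENNReal.log_ofReal_of_pos h, ← EReal.coe_neg,
      EReal.real_coe_toENNReal, ← ENNReal.ofReal_mul hθ.le,
      ← ENNReal.ofReal_add (by linarith) (by positivity),
      ← ENNReal.ofReal_add (by positivity) (by nlinarith), log_mul g0.ne' h.ne']
    congr 1
    ring
  have h5 := h4.trans_le (add_le_add h2 le_rfl)
  rw [h1, ← ENNReal.ofReal_mul hθ.le, ← ENNReal.ofReal_one,
    ← ENNReal.ofReal_add zero_le_one (by positivity), ← zero_add (ENNReal.ofReal (1 + _)),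
    ← add_assoc, add_zero, ENNReal.add_le_add_iff_right ENNReal.ofReal_ne_top, nonpos_iff_eq_zero,
    lintegral_eq_zero_iff (by fun_prop)] at h5
  have h6 : ∀ᵐ y ∂ν, φ * ν.real {y} = 1 := by
    filter_upwards [h3, h5] with y h k
    by_contra c
    have := add_one_lt_exp (mul_ne_zero (log_ne_zero_of_pos_of_ne_one (by positivity) c) hθ.ne')
    rw [← rpow_def_of_pos (by positivity)] at this
    simp only [Pi.zero_apply, ENNReal.ofReal_eq_zero] at k
    linarith
  obtain ⟨a, ha⟩ := h6.exists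
  obtain ⟨b, hb, hb'⟩ : ∃ b, b ≠ a ∧ φ * ν.real {b} = 1 := by
    by_contra! c
    have : ν {a}ᶜ = 0 := measure_mono_null (fun b hb => c b hb) (ae_iff.1 h6)
    rw [prob_compl_eq_zero_iff (measurableSet_singleton a)] at this
    simp [Measure.real, this, one_lt_goldenRatio.ne'] at ha
  have := measureReal_union (μ := ν) (Set.disjoint_singleton.2 hb) (measurableSet_singleton a)
  nlinarith [measureReal_le_one (μ := ν) (s := {b} ∪ {a}), goldenRatio_lt_two]

lemma mom {W : ℕ → (ℤ → E) → ℝ} {P : Measure (ℤ → E)} [IsProbabilityMeasure P] {C c : ℝ} (hc : 0 < c)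
    (m : ∀ n, Measurable (W n)) (h0 : ∀ n y, 0 ≤ W n y)
    (h : ∀ n k : ℕ, P {y | φ ^ (2 * k + 2) < W n y} ≤
      ∑' j : ℕ, 2 * ENNReal.ofReal (C * exp (-c * (k + j : ℕ)))) :
    ∃ B < ∞, ∀ n, ∫⁻ y, .ofReal (W n y ^ (c / 4)) ∂P ≤ B := by
  have e : ∀ k : ℕ, (φ ^ k) ^ (c / 4) ≤ exp (k * (c / 4)) := fun k => by
    rw [exp_mul, ← exp_one_pow]
    gcongr
    linarith [add_one_le_exp 1, goldenRatio_lt_two]
  have e1 : ∀ x : ℝ, 0 < x → ∑' k : ℕ, ENNReal.ofReal (exp (-x)) ^ k < ∞ := fun x hx => by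
    simpa [ENNReal.tsum_geometric] using hx
  refine ⟨.ofReal (exp (c / 2)) + ∑' k : ℕ, .ofReal (exp (-(c / 2))) ^ k * (.ofReal (exp c) *
    ∑' j : ℕ, 2 * (.ofReal C * .ofReal (exp (-c)) ^ j)), ?_, fun n => ?_⟩
  · have := (e1 c hc).ne
    have := (e1 _ (half_pos hc)).ne
    simp only [ENNReal.tsum_mul_left, ENNReal.tsum_mul_right]
    finiteness
  have ms := fun k : ℕ => measurableSet_lt (measurable_const (a := φ ^ (2 * k + 2))) (m n)
  refine (lintegral_mono (g := fun y => .ofReal (exp (c / 2)) + ∑' k : ℕ, {y | φ ^ (2 * k + 2) < W n y}.indicator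
    (fun _ => .ofReal (exp ((2 * k + 4 : ℕ) * (c / 4)))) y) fun y => ?_).trans ?_
  · have ex : ∃ k : ℕ, W n y ≤ φ ^ (2 * k + 2) :=
      (pow_unbounded_of_one_lt _ one_lt_goldenRatio).imp fun k hk =>
        hk.le.trans (pow_le_pow_right₀ one_lt_goldenRatio.le (by omega))
    have h1 := ENNReal.ofReal_le_ofReal
      ((rpow_le_rpow (h0 n y) (Nat.find_spec ex) (by positivity : 0 ≤ c / 4)).trans (e _))
    rcases hk : Nat.find ex with _ | k
    · exact h1.trans (le_self_add.trans' (le_of_eq (by rw [hk]; congr 2; push_cast; ring)))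
    · refine h1.trans (le_add_self.trans' ((ENNReal.le_tsum k).trans' (le_of_eq ?_)))
      rw [Set.indicator_of_mem (s := {y | φ ^ (2 * k + 2) < W n y})
        (not_le.1 (Nat.find_min ex (by omega))), hk]
      rfl
  · rw [lintegral_add_left measurable_const, lintegral_const, measure_univ, mul_one,
      lintegral_tsum fun k => (measurable_const.indicator (ms k)).aemeasurable]
    gcongr with k
    rw [lintegral_indicator_const (ms k)]
    refine (mul_le_mul_right (h n k) _).trans_eq ?_
    simp only [← ENNReal.tsum_mul_left]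
    refine tsum_congr fun j => ?_
    rw [ENNReal.ofReal_mul' (exp_pos _).le, ← ENNReal.ofReal_pow (exp_pos _).le,
      ← ENNReal.ofReal_pow (exp_pos _).le, ← exp_nat_mul, ← exp_nat_mul]
    have : ENNReal.ofReal (exp ((2 * k + 4 : ℕ) * (c / 4))) * .ofReal (exp (-c * (k + j : ℕ))) =
        .ofReal (exp (k * -(c / 2))) * (.ofReal (exp c) * .ofReal (exp (j * -c))) := by
      simp only [← ENNReal.ofReal_mul (exp_pos _).le, ← exp_add]
      congr 2
      push_cast
      ring
    rw [mul_left_comm, mul_left_comm _ (ENNReal.ofReal C), this]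
    ring

theorem result : ∃ (p : Bool → ℝ) (P : Bool → Bool → ℝ), (∀ i, 0 < p i) ∧ ∑ i, p i = 1 ∧
    (∀ i j, 0 ≤ P i j) ∧ (∀ i, ∑ j, P i j = 1) ∧ (∀ j, ∑ i, p i * P i j = p j) ∧
    (∀ i j, 0 < ∑ k, P i k * P k j) ∧
    ∀ (E : Type) [MeasurableSpace E] [StandardBorelSpace E] (ν : Measure E) [IsProbabilityMeasure ν]
      (f : (ℤ → E) → ℤ → Bool), ent ν = .ofReal (∑ i, p i * ∑ j, negMulLog (P i j)) →
      Measurable f →
      (∀ j, ∀ᵐ y ∂Measure.infinitePi fun _ => ν, f (fun i => y (i + j)) = fun i => f y (i + j)) →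
      (∀ (a : ℤ) (n : ℕ) (w : Fin (n + 1) → Bool),
        (Measure.infinitePi fun _ => ν).real {y | ∀ i : Fin (n + 1), f y (a + i) = w i} =
          p (w 0) * ∏ i : Fin n, P (w i.castSucc) (w i.succ)) →
      ∀ A : Set (ℤ → E), (∀ᵐ y ∂Measure.infinitePi fun _ => ν, y ∈ A) →
        ¬ ∃ C c : ℝ, 0 < c ∧ ∀ R : ℕ, Measure.infinitePi (fun _ => ν)
          {y | ¬ ∀ z ∈ A, (∀ i : ℤ, |i| ≤ R → z i = y i) → f z 0 = f y 0} ≤
            .ofReal (C * exp (-c * R)) := by
  have g0 := goldenRatio_pos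
  have g1 := one_lt_goldenRatio
  have g2 := goldenRatio_sq
  have hr : ∀ i, 1 ≤ r i ∧ r i ≤ φ := fun i => by cases i <;> simp [r, g1.le]
  refine ⟨fun i => r i ^ 2 / (φ + 2), Q, fun i => by have := (hr i).1; positivity, ?_,
    fun i j => by have := (hr i).1; have := (hr j).1; unfold Q; split_ifs <;> positivity,
    fun i => ?_, fun i => ?_, fun i j => ?_, fun E _ _ ν _ f h1 _ h2 h3 A h4 ⟨C, c, hc, h5⟩ => ?_⟩
  · simp only [Fintype.sum_bool, r]; simp only [if_true, Bool.false_eq_true, if_false]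
    generalize φ = g at *
    field_simp; linarith
  · simp only [Q, r]
    generalize φ = g at *
    cases i <;> simp [g0.ne']
    field_simp; linarith
  · simp only [Q, r]
    generalize φ = g at *
    cases i <;> simp <;> field_simp; linarith
  · cases i <;> cases j <;> simp [Q, r, -goldenRatio_sq] <;> positivity
  have h6 : ent ν = .ofReal (log φ) := by
    rw [h1]
    congr 1
    simp only [Q, r]
    generalize φ = g at g0 g2 ⊢
    simp [negMulLog, g0.ne', log_mul]
    field_simp
    ring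
  have sh : ∀ j, MeasurePreserving (fun (y : ℤ → E) i => y (i + j)) (Measure.infinitePi fun _ => ν)
      (Measure.infinitePi fun _ => ν) := fun j =>
    ⟨by fun_prop, Measure.map_infinitePi_infinitePi_of_inj (add_left_injective j)⟩
  have m1 : Measurable fun y => ν.real {y} := (mν ν).ennreal_toReal
  refine (mom (P := Measure.infinitePi fun _ => ν) (C := C)
    (W := fun n y => ∏ i ∈ Ico (0 : ℤ) n, φ * ν.real {y i}) hc
    (fun n => Finset.measurable_prod _ fun i _ => (m1.comp (measurable_pi_apply i)).const_mul _)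
    (fun n y => by positivity) fun n k => ?_).elim fun B ⟨hB, h7⟩ => ?_
  swap
  · refine fin ν (θ := c / 4) (by positivity) h6 (not_lt.1 fun h => ?_)
    obtain ⟨n, hn⟩ := ((ENNReal.tendsto_pow_atTop_nhds_top_iff.2 h).eventually_const_lt hB).exists
    refine hn.not_ge (le_of_eq_of_le ?_ (h7 n))
    have m : Measurable fun y => ENNReal.ofReal ((φ * ν.real {y}) ^ (c / 4)) := by fun_prop
    have := lintegral_prod_eq_prod_lintegral_of_indepFun (Ico (0 : ℤ) n) _
      (iIndepFun_infinitePi (P := fun _ : ℤ => ν) fun _ => m) fun i => m.comp (measurable_pi_apply i)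
    simp only [(measurePreserving_eval_infinitePi (fun _ : ℤ => ν) _).lintegral_comp m, prod_const,
      Int.card_Ico, sub_zero, Int.toNat_natCast] at this
    rw [← this]
    refine lintegral_congr fun y => ?_
    rw [← ENNReal.ofReal_prod_of_nonneg fun _ _ => by positivity,
      finsetProd_rpow _ _ fun _ _ => by positivity]
  set U := fun R : ℕ => {y | ¬ ∀ z ∈ A, (∀ i : ℤ, |i| ≤ R → z i = y i) → f z 0 = f y 0}
  refine (measure_mono_ae (t := ⋃ j : ℕ, (fun (y : ℤ → E) i => y (i + (k + j : ℕ))) ⁻¹' U (k + j) ∪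
    (fun (y : ℤ → E) i => y (i + (n - 1 - (k + j : ℕ)))) ⁻¹' U (k + j)) ?_).trans
    ((measure_iUnion_le _).trans (ENNReal.tsum_le_tsum fun j => (measure_union_le _ _).trans
      ((add_le_add (((sh _).measure_preimage_le _).trans (h5 _))
        (((sh _).measure_preimage_le _).trans (h5 _))).trans_eq (two_mul _).symm)))
  filter_upwards [ae_all_iff.2 h2] with y hy h
  refine Set.mem_iUnion.2 (by_contra fun hU => ?_)
  simp only [Set.mem_union, Set.mem_preimage, not_exists, not_or, U,
    Set.mem_ofPred_eq, not_not] at hU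
  refine absurd h (not_lt.2 ?_)
  rw [prod_mul_distrib, prod_const, Int.card_Ico, sub_zero, Int.toNat_natCast]
  rcases le_or_gt n (2 * k) with hk | hk
  · exact (mul_le_of_le_one_right (by positivity) (prod_le_one (fun _ _ => measureReal_nonneg)
      fun _ _ => measureReal_le_one)).trans (pow_le_pow_right₀ g1.le (by omega))
  obtain ⟨L, rfl⟩ : ∃ L, n = 2 * k + 1 + L := Nat.exists_eq_add_of_le hk
  have h8 : ∏ i ∈ Ico (0 : ℤ) (2 * k + 1 + L : ℕ), ν.real {y i} ≤ (Measure.infinitePi fun _ => ν).real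
      {z | ∀ i : Fin (L + 1), f z (k + i) = f y (k + i)} := by
    simp only [Measure.real]
    rw [← ENNReal.toReal_prod, ← Measure.infinitePi_pi _ fun _ _ => measurableSet_singleton _]
    refine ENNReal.toReal_mono (measure_ne_top _ _) (measure_mono_ae ?_)
    filter_upwards [ae_all_iff.2 h2, ae_all_iff.2 fun j => (sh j).quasiMeasurePreserving.ae h4]
      with z k1 k2 k3 i
    have k4 : ∀ w j, (f (fun i => w (i + j)) = fun i => f w (i + j)) →
        f w j = f (fun i => w (i + j)) 0 := fun w j h => by simp [h]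
    have := i.2
    rw [k4 _ _ (k1 _), k4 _ _ (hy _)]
    rcases le_total (2 * i.1) L with c | c
    · have k5 := (hU i).1
      push_cast at k5
      exact k5 _ (k2 _) fun t ht => k3 _ (by simp [abs_le] at ht ⊢; omega)
    · have k5 := (hU (L - i)).2
      rw [show ((2 * k + 1 + L : ℕ) - 1 - (k + (L - i) : ℕ) : ℤ) = k + i by omega] at k5
      exact k5 _ (k2 _) fun t ht => k3 _ (by simp [abs_le] at ht ⊢; omega)
  rw [h3 k L fun i => f y (k + i)] at h8
  have h9 := (cyl L fun i => f y (k + i)).trans (hr _).2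
  have h10 : 0 ≤ ∏ i : Fin L, Q (f y (k + i.castSucc)) (f y (k + i.succ)) := prod_nonneg fun i _ => by
    unfold Q r; split_ifs <;> positivity
  have h11 := hr (f y (k + (0 : Fin (L + 1))))
  have h12 : r (f y (k + (0 : Fin (L + 1)))) ^ 2 / (φ + 2) ≤ r (f y (k + (0 : Fin (L + 1)))) := by
    rw [div_le_iff₀ (by positivity)]; nlinarith
  rw [pow_add, mul_assoc, pow_succ φ (2 * k + 1)]
  gcongr
  nlinarith [mul_le_mul_of_nonneg_left (h8.trans (mul_le_mul_of_nonneg_right h12 h10)) (pow_pos g0 L).le]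

end Pool.Agent.Results.MP_207c40_pr.Golden
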